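import Pool.Agent.LeoK.StrStmts

/-!
# Squad leok: quadratic extensions `F = k(s)`
-/

set_option autoImplicit false

open NumberField IsDedekindDomain WithZero Module
open Pool.Agent.Helper85_Leo Pool.Agent.Leo3

namespace Pool.Agent.LeoK.H61

section quad

variable {k F : Type} [Field k] [Field F] [Algebra k F]

theorem span_pair (hF : finrank k F = 2) {s : F} (hs : ∀ x : k, algebraMap k F x ≠ s) (z : F) :
    ∃ a b : k, z = algebraMap k F a + algebraMap k F b * s := by
  have hli : LinearIndependent k ![(1 : F), s] := by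
    rw [LinearIndependent.pair_iff]
    intro a b hab
    have hab' : algebraMap k F a + algebraMap k F b * s = 0 := by
      simpa [Algebra.smul_def] using hab
    by_cases hb : b = 0
    · subst hb
      simp only [map_zero, zero_mul, add_zero] at hab'
      exact ⟨(map_eq_zero _).1 hab', rfl⟩
    · exfalso
      have hb' : algebraMap k F b ≠ 0 := (map_ne_zero _).2 hb
      refine hs (-a / b) ?_
      rw [map_div₀, map_neg, div_eq_iff hb']
      linear_combination -hab'
  have hspan : ⊤ ≤ Submodule.span k (Set.range ![(1 : F), s]) := by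
    rw [hli.span_eq_top_of_card_eq_finrank (by simp [hF])]
  have hz : z ∈ Submodule.span k (Set.range ![(1 : F), s]) := hspan trivial
  simp only [Matrix.range_cons, Matrix.range_empty, Set.union_empty] at hz
  rw [Set.singleton_union, Submodule.mem_span_pair] at hz
  obtain ⟨a, b, hab⟩ := hz
  exact ⟨a, b, by rw [← hab]; simp [Algebra.smul_def]⟩

variable {c : F ≃ₐ[k] F} {s : F}

theorem ne_of_conj [CharZero F] (hs0 : s ≠ 0) (hc : c s = -s) (x : k) : algebraMap k F x ≠ s := by
  intro h
  rw [← h, c.commutes] at hc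
  rw [← h] at hs0
  have h2 : (2 : F) * algebraMap k F x = 0 := by linear_combination hc
  rcases mul_eq_zero.1 h2 with h3 | h3
  · exact two_ne_zero h3
  · exact hs0 h3

theorem conj_apply (hc : c s = -s) (a b : k) :
    c (algebraMap k F a + algebraMap k F b * s) = algebraMap k F a - algebraMap k F b * s := by
  rw [map_add, map_mul, hc, c.commutes, c.commutes]
  ring

theorem conj_conj [CharZero F] (hF : finrank k F = 2) (hs0 : s ≠ 0) (hc : c s = -s) (z : F) :
    c (c z) = z := by
  obtain ⟨a, b, rfl⟩ := span_pair hF (ne_of_conj hs0 hc) z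
  rw [conj_apply hc]
  rw [map_sub, map_mul, hc, c.commutes, c.commutes]
  ring

theorem fixed_mem [CharZero F] (hF : finrank k F = 2) (hs0 : s ≠ 0) (hc : c s = -s) {z : F}
    (hz : c z = z) : ∃ a : k, z = algebraMap k F a := by
  obtain ⟨a, b, rfl⟩ := span_pair hF (ne_of_conj hs0 hc) z
  rw [conj_apply hc] at hz
  have h2 : (2 : F) * (algebraMap k F b * s) = 0 := by linear_combination -hz
  have h3 : algebraMap k F b * s = 0 := by
    rcases mul_eq_zero.1 h2 with h | h
    · exact absurd h two_ne_zero
    · exact h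
  exact ⟨a, by rw [h3, add_zero]⟩

theorem anti_mem [CharZero F] (hF : finrank k F = 2) (hs0 : s ≠ 0) (hc : c s = -s) {z : F}
    (hz : c z = -z) : ∃ b : k, z = algebraMap k F b * s := by
  obtain ⟨a, b, rfl⟩ := span_pair hF (ne_of_conj hs0 hc) z
  rw [conj_apply hc] at hz
  have h2 : (2 : F) * algebraMap k F a = 0 := by linear_combination hz
  have h3 : algebraMap k F a = 0 := by
    rcases mul_eq_zero.1 h2 with h | h
    · exact absurd h two_ne_zero
    · exact h
  exact ⟨b, by rw [h3, zero_add]⟩

end quad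

section ints

variable {k F : Type} [Field k] [Field F] [Algebra k F]

theorem coe_alg (x : 𝓞 k) : algebraMap (𝓞 F) F (algebraMap (𝓞 k) (𝓞 F) x) =
    algebraMap k F (algebraMap (𝓞 k) k x) := rfl

/-- conjugation on integers -/
theorem coe_conj (c : F ≃+* F) (x : 𝓞 F) :
    algebraMap (𝓞 F) F (RingOfIntegers.mapRingEquiv c x) = c (algebraMap (𝓞 F) F x) := rfl

theorem mem_conjI (c : F ≃+* F) (I : Ideal (𝓞 F)) (x : 𝓞 F) :
    x ∈ conjI c I ↔ ∃ y ∈ I, algebraMap (𝓞 F) F x = c (algebraMap (𝓞 F) F y) := by
  unfold conjI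
  rw [Ideal.mem_map_of_equiv]
  constructor
  · rintro ⟨y, hy, rfl⟩
    exact ⟨y, hy, rfl⟩
  · rintro ⟨y, hy, h⟩
    exact ⟨y, hy, RingOfIntegers.ext h.symm⟩

end ints

end Pool.Agent.LeoK.H61
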