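import Pool.Agent.Helper61_LeoK.Quad

/-!
# Squad leok, module BAS: basis of an ideal of principal norm
-/

set_option autoImplicit false

open NumberField IsDedekindDomain WithZero Module
open Pool.Agent.Helper85_Leo Pool.Agent.Leo3

namespace Pool.Agent.LeoK.H61

theorem mem_pair_mul {R : Type} [CommRing R] {y₁ y₂ : R} {C : Ideal R} {x : R}
    (h : x ∈ Ideal.span {y₁, y₂} * C) : ∃ c₁ ∈ C, ∃ c₂ ∈ C, x = y₁ * c₁ + y₂ * c₂ := by
  have e : (Ideal.span {y₁, y₂} : Ideal R) = Ideal.span {y₁} ⊔ Ideal.span {y₂} := by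
    rw [← Ideal.span_union]
    rfl
  rw [e, Ideal.sup_mul] at h
  obtain ⟨a, ha, b, hb, rfl⟩ := Submodule.mem_sup.1 h
  obtain ⟨c₁, h1, rfl⟩ := Ideal.mem_span_singleton_mul.1 ha
  obtain ⟨c₂, h2, rfl⟩ := Ideal.mem_span_singleton_mul.1 hb
  exact ⟨c₁, h1, c₂, h2, rfl⟩

/-- The core of BAS: `R ⊆ S` Dedekind domains, `S = R + R w`, `c` an involution. -/
theorem bas_core {R S F : Type} [CommRing R] [IsDomain R] [IsDedekindDomain R] [CommRing S]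
    [IsDomain S] [IsDedekindDomain S] [Field F] (j : R →+* S) (ι : S →+* F)
    (hι : Function.Injective ι) (hj : Function.Injective j) (c : F ≃+* F) (hcc : ∀ z, c (c z) = z)
    (hcj : ∀ y, c (ι (j y)) = ι (j y)) (hcS : ∀ x : S, ∃ x' : S, ι x' = c (ι x)) (s : F) (hs0 : s ≠ 0)
    (hQ : ∀ x : S, ∃ y : R, ι x - c (ι x) = ι (j y) * s) (w : S) (hw1 : ι w - c (ι w) = s)
    (hw2 : ∀ x : S, ∃ p q : R, x = j p + j q * w) (I J : Ideal S)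
    (hJ : ∀ x, x ∈ J ↔ ∃ y ∈ I, ι x = c (ι y)) (ν : R) (hν : ν ≠ 0)
    (hI : I * J = Ideal.span {j ν}) :
    ∃ u v : S, u ∈ I ∧ v ∈ I ∧ (∀ x ∈ I, ∃ p q : R, x = j p * u + j q * v) ∧
      ι u * c (ι v) - ι v * c (ι u) = ι (j ν) * s := by
  -- the coefficient ideal
  obtain ⟨b, hb⟩ : ∃ b : Ideal R, ∀ y : R, y ∈ b ↔ ∃ x ∈ I, ι x - c (ι x) = ι (j y) * s := by
    refine ⟨⟨⟨⟨{y | ∃ x ∈ I, ι x - c (ι x) = ι (j y) * s}, ?_⟩, ?_⟩, ?_⟩, fun y => Iff.rfl⟩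
    · rintro y y' ⟨x, hx, h⟩ ⟨x', hx', h'⟩
      refine ⟨x + x', I.add_mem hx hx', ?_⟩
      rw [map_add, map_add, map_add, map_add]
      linear_combination h + h'
    · exact ⟨0, I.zero_mem, by simp⟩
    · rintro a y ⟨x, hx, h⟩
      refine ⟨j a * x, I.mul_mem_left _ hx, ?_⟩
      rw [smul_eq_mul, map_mul, map_mul, hcj, map_mul, map_mul]
      linear_combination ι (j a) * h
  -- both coordinates are in `b`
  have hcoord : ∀ x ∈ I, ∀ p q : R, x = j p + j q * w → p ∈ b ∧ q ∈ b := by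
    intro x hx p q hpq
    have hq : q ∈ b := by
      rw [hb]
      refine ⟨x, hx, ?_⟩
      rw [hpq, map_add, map_mul, map_add, map_mul, hcj, hcj, ← hw1]
      ring
    refine ⟨?_, hq⟩
    obtain ⟨t₁, t₂, ht⟩ := hw2 (w * w)
    have h1 : (p + q * t₂) ∈ b := by
      rw [hb]
      refine ⟨w * x, I.mul_mem_left _ hx, ?_⟩
      have e1 : w * x = j (q * t₁) + j (p + q * t₂) * w := by
        rw [hpq]
        simp only [map_mul, map_add]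
        linear_combination j q * ht
      rw [e1, map_add ι, map_mul ι, map_add c, map_mul c, hcj, hcj, ← hw1]
      ring
    have h2 := b.sub_mem h1 (b.mul_mem_right t₂ hq)
    have e2 : p + q * t₂ - q * t₂ = p := by ring
    rwa [e2] at h2
  -- `b` is not zero
  have hjν : j ν ≠ 0 := (map_ne_zero_iff j hj).2 hν
  have hI0 : I ≠ ⊥ := by
    rintro rfl
    rw [Ideal.bot_mul] at hI
    exact hjν (Ideal.span_singleton_eq_bot.1 hI.symm)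
  obtain ⟨x₀, hx₀, hx₀0⟩ := Submodule.exists_mem_ne_zero_of_ne_bot hI0
  obtain ⟨y₁, hy₁, hy₁0⟩ : ∃ y ∈ b, y ≠ 0 := by
    obtain ⟨p, q, hpq⟩ := hw2 x₀
    obtain ⟨h1, h2⟩ := hcoord x₀ hx₀ p q hpq
    by_cases hq : q = 0
    · refine ⟨p, h1, ?_⟩
      rintro rfl
      apply hx₀0
      rw [hpq, hq, map_zero, zero_mul, add_zero]
    · exact ⟨q, h2, hq⟩
  obtain ⟨y₂, hy₂⟩ := IsDedekindDomain.exists_eq_span_pair hy₁ hy₁0
  have hy₂b : y₂ ∈ b := by rw [hy₂]; exact Ideal.subset_span (by simp)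
  -- the complement
  obtain ⟨C, hC⟩ : b ∣ Ideal.span {y₁} := by
    rw [Ideal.dvd_span_singleton]
    exact hy₁
  have hCdvd : ∀ y ∈ b, ∀ d ∈ C, ∃ z, d * y = y₁ * z := by
    intro y hy d hd
    have h1 : y * d ∈ Ideal.span {y₁} := by
      rw [hC]
      exact Ideal.mul_mem_mul hy hd
    obtain ⟨z, hz⟩ := Ideal.mem_span_singleton.1 h1
    exact ⟨z, by rw [← hz]; ring⟩
  obtain ⟨c₁, hc₁, c₂, hc₂, hsum⟩ : ∃ c₁ ∈ C, ∃ c₂ ∈ C, y₁ = y₁ * c₁ + y₂ * c₂ := by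
    apply mem_pair_mul
    rw [← hy₂, ← hC]
    exact Ideal.mem_span_singleton_self _
  obtain ⟨d₁, hd₁⟩ := hCdvd y₂ hy₂b c₁ hc₁
  obtain ⟨d₂, hd₂⟩ := hCdvd y₂ hy₂b c₂ hc₂
  have hone : c₁ + d₂ = 1 := by
    apply mul_left_cancel₀ hy₁0
    rw [mul_one]
    linear_combination -hsum - hd₂
  -- elements of `R` in `I`
  have hmem : ∀ d ∈ C, ∃ h ∈ I, ι (j y₁) * ι h = ι (j ν) * ι (j d) := by
    intro d hd
    have h1 : Ideal.span {j d} * I ≤ Ideal.span {j y₁} := by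
      rw [Ideal.span_singleton_mul_le_iff]
      intro x hx
      obtain ⟨p, q, hpq⟩ := hw2 x
      obtain ⟨h1, h2⟩ := hcoord x hx p q hpq
      obtain ⟨p', hp'⟩ := hCdvd p h1 d hd
      obtain ⟨q', hq'⟩ := hCdvd q h2 d hd
      rw [Ideal.mem_span_singleton]
      refine ⟨j p' + j q' * w, ?_⟩
      have e1 : j d * j p = j y₁ * j p' := by rw [← map_mul, hp', map_mul]
      have e2 : j d * j q = j y₁ * j q' := by rw [← map_mul, hq', map_mul]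
      rw [hpq]
      linear_combination e1 + w * e2
    have h2 : Ideal.span {j d * j ν} ≤ Ideal.span {j y₁} * J := by
      have h3 : Ideal.span {j d} * I * J ≤ Ideal.span {j y₁} * J := Ideal.mul_mono_left h1
      rw [mul_assoc, hI, Ideal.span_singleton_mul_span_singleton] at h3
      exact h3
    have h4 := h2 (Ideal.mem_span_singleton_self _)
    obtain ⟨h', hh', he⟩ := Ideal.mem_span_singleton_mul.1 h4
    obtain ⟨h, hh, hh2⟩ := (hJ h').1 hh'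
    refine ⟨h, hh, ?_⟩
    have he' := congrArg ι he
    simp only [map_mul] at he'
    rw [hh2] at he'
    have he'' := congrArg c he'
    simp only [map_mul, hcj, hcc] at he''
    rw [he'']
    ring
  obtain ⟨h₁, hh₁, eh₁⟩ := hmem c₁ hc₁
  obtain ⟨h₂, hh₂, eh₂⟩ := hmem c₂ hc₂
  obtain ⟨x₁, hx₁, hx₁e⟩ := (hb y₁).1 hy₁
  obtain ⟨x₂, hx₂, hx₂e⟩ := (hb y₂).1 hy₂b
  -- abbreviations in `F`
  have inj0 : ∀ y : R, y ≠ 0 → ι (j y) ≠ 0 := fun y hy =>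
    (map_ne_zero_iff ι hι).2 ((map_ne_zero_iff j hj).2 hy)
  have hY0 := inj0 y₁ hy₁0
  have hN0 := inj0 ν hν
  obtain ⟨Y₁, hY₁⟩ : ∃ Y : F, Y = ι (j y₁) := ⟨_, rfl⟩
  obtain ⟨Y₂, hY₂⟩ : ∃ Y : F, Y = ι (j y₂) := ⟨_, rfl⟩
  obtain ⟨C₁, hC₁⟩ : ∃ Y : F, Y = ι (j c₁) := ⟨_, rfl⟩
  obtain ⟨C₂, hC₂⟩ : ∃ Y : F, Y = ι (j c₂) := ⟨_, rfl⟩
  obtain ⟨D₁, hD₁⟩ : ∃ Y : F, Y = ι (j d₁) := ⟨_, rfl⟩
  obtain ⟨D₂, hD₂⟩ : ∃ Y : F, Y = ι (j d₂) := ⟨_, rfl⟩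
  obtain ⟨V, hV⟩ : ∃ Y : F, Y = ι (j ν) := ⟨_, rfl⟩
  have cY₁ : c Y₁ = Y₁ := by rw [hY₁]; exact hcj _
  have cY₂ : c Y₂ = Y₂ := by rw [hY₂]; exact hcj _
  have cC₁ : c C₁ = C₁ := by rw [hC₁]; exact hcj _
  have cC₂ : c C₂ = C₂ := by rw [hC₂]; exact hcj _
  have cD₁ : c D₁ = D₁ := by rw [hD₁]; exact hcj _
  have cD₂ : c D₂ = D₂ := by rw [hD₂]; exact hcj _
  have cV : c V = V := by rw [hV]; exact hcj _
  have eD₁ : C₁ * Y₂ = Y₁ * D₁ := by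
    rw [hC₁, hY₂, hY₁, hD₁, ← map_mul, ← map_mul, hd₁, map_mul, map_mul]
  have eD₂ : C₂ * Y₂ = Y₁ * D₂ := by
    rw [hC₂, hY₂, hY₁, hD₂, ← map_mul, ← map_mul, hd₂, map_mul, map_mul]
  have eone : C₁ + D₂ = 1 := by
    rw [hC₁, hD₂, ← map_add, ← map_add, hone, map_one, map_one]
  rw [← hY₁] at hY0 hx₁e eh₁ eh₂
  rw [← hY₂] at hx₂e
  rw [← hV] at hN0 eh₁ eh₂
  rw [← hC₁] at eh₁
  rw [← hC₂] at eh₂
  obtain ⟨X₁, hX₁⟩ : ∃ Y : F, Y = ι x₁ := ⟨_, rfl⟩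
  obtain ⟨X₂, hX₂⟩ : ∃ Y : F, Y = ι x₂ := ⟨_, rfl⟩
  obtain ⟨H₁, hH₁⟩ : ∃ Y : F, Y = ι h₁ := ⟨_, rfl⟩
  obtain ⟨H₂, hH₂⟩ : ∃ Y : F, Y = ι h₂ := ⟨_, rfl⟩
  rw [← hX₁] at hx₁e
  rw [← hX₂] at hx₂e
  rw [← hH₁] at eh₁
  rw [← hH₂] at eh₂
  -- the element `E`
  obtain ⟨E, hE⟩ : ∃ E : F, E = (C₁ * X₁ + C₂ * X₂) / Y₁ := ⟨_, rfl⟩
  have hY₁E : Y₁ * E = C₁ * X₁ + C₂ * X₂ := by rw [hE]; field_simp
  have hY₂E : Y₂ * E = D₁ * X₁ + D₂ * X₂ := by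
    apply mul_left_cancel₀ hY0
    linear_combination Y₂ * hY₁E + X₁ * eD₁ + X₂ * eD₂
  have g1 : Y₁ * c E = C₁ * c X₁ + C₂ * c X₂ := by
    have := congrArg c hY₁E
    simp only [map_mul, map_add, cY₁, cC₁, cC₂] at this
    exact this
  have g2 : Y₂ * c E = D₁ * c X₁ + D₂ * c X₂ := by
    have := congrArg c hY₂E
    simp only [map_mul, map_add, cY₂, cD₁, cD₂] at this
    exact this
  have hEc : E - c E = s := by
    apply mul_left_cancel₀ hY0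
    linear_combination hY₁E - g1 + C₁ * hx₁e + C₂ * hx₂e + s * eD₂ + Y₁ * s * eone
  have ch₁ : c H₁ = H₁ := by
    apply mul_left_cancel₀ hY0
    have := congrArg c eh₁
    simp only [map_mul, cY₁, cV, cC₁] at this
    rw [this, eh₁]
  have ch₂ : c H₂ = H₂ := by
    apply mul_left_cancel₀ hY0
    have := congrArg c eh₂
    simp only [map_mul, cY₁, cV, cC₂] at this
    rw [this, eh₂]
  -- u, v
  refine ⟨j c₁ * x₁ + j c₂ * x₂ - h₂, j d₁ * x₁ + j d₂ * x₂ + h₁,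
    I.sub_mem (I.add_mem (I.mul_mem_left _ hx₁) (I.mul_mem_left _ hx₂)) hh₂,
    I.add_mem (I.add_mem (I.mul_mem_left _ hx₁) (I.mul_mem_left _ hx₂)) hh₁, ?_, ?_⟩
  · intro x hx
    obtain ⟨y, hy⟩ := hQ x
    have hyb : y ∈ b := (hb y).2 ⟨x, hx, hy⟩
    obtain ⟨e₁, he₁⟩ := hCdvd y hyb c₁ hc₁
    obtain ⟨e₂, he₂⟩ := hCdvd y hyb c₂ hc₂
    obtain ⟨Y, hYdef⟩ : ∃ Y : F, Y = ι (j y) := ⟨_, rfl⟩
    obtain ⟨E₁, hE₁⟩ : ∃ Y : F, Y = ι (j e₁) := ⟨_, rfl⟩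
    obtain ⟨E₂, hE₂⟩ : ∃ Y : F, Y = ι (j e₂) := ⟨_, rfl⟩
    have ee₁ : C₁ * Y = Y₁ * E₁ := by
      rw [hC₁, hYdef, hY₁, hE₁, ← map_mul, ← map_mul, he₁, map_mul, map_mul]
    have ee₂ : C₂ * Y = Y₁ * E₂ := by
      rw [hC₂, hYdef, hY₁, hE₂, ← map_mul, ← map_mul, he₂, map_mul, map_mul]
    rw [← hYdef] at hy
    have hYE : Y * E = E₁ * X₁ + E₂ * X₂ := by
      apply mul_left_cancel₀ hY0
      linear_combination Y * hY₁E + X₁ * ee₁ + X₂ * ee₂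
    -- the invariant part
    obtain ⟨al, hal, halF⟩ : ∃ al ∈ I, ι al = ι x - Y * E := by
      refine ⟨x - (j e₁ * x₁ + j e₂ * x₂),
        I.sub_mem hx (I.add_mem (I.mul_mem_left _ hx₁) (I.mul_mem_left _ hx₂)), ?_⟩
      rw [map_sub, map_add, map_mul, map_mul, hYE, hE₁, hE₂, hX₁, hX₂]
    have cY : c Y = Y := by rw [hYdef]; exact hcj _
    have cal : c (ι al) = ι al := by
      rw [halF, map_sub, map_mul, cY]
      linear_combination -hy + Y * hEc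
    have hcol : ∀ x' ∈ I, ∀ y' : R, ι x' - c (ι x') = ι (j y') * s →
        ∃ b' : R, ι al * ι (j y') = V * ι (j b') := by
      intro x' hx' y' hy'
      obtain ⟨t', ht'⟩ : ∃ t' ∈ J, ι t' = c (ι x') := by
        obtain ⟨t', ht'⟩ := hcS x'
        exact ⟨t', (hJ t').2 ⟨x', hx', ht'⟩, ht'⟩
      have h1 : al * t' ∈ Ideal.span {j ν} := by
        rw [← hI]
        exact Ideal.mul_mem_mul hal ht'.1
      obtain ⟨z, hz⟩ := Ideal.mem_span_singleton.1 h1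
      have hz1 : ι al * c (ι x') = V * ι z := by
        have := congrArg ι hz
        rw [map_mul, map_mul, ht'.2, ← hV] at this
        exact this
      have hz2 : ι al * ι x' = V * c (ι z) := by
        have := congrArg c hz1
        simp only [map_mul, cal, cV, hcc] at this
        exact this
      obtain ⟨y'', hy''⟩ := hQ z
      refine ⟨-y'', ?_⟩
      apply mul_right_cancel₀ hs0
      rw [map_neg, map_neg]
      linear_combination hz2 - hz1 - ι al * hy' - V * hy''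
    obtain ⟨b₁, hb₁⟩ := hcol x₁ hx₁ y₁ (by rw [← hY₁, ← hX₁]; exact hx₁e)
    obtain ⟨b₂, hb₂⟩ := hcol x₂ hx₂ y₂ (by rw [← hY₂, ← hX₂]; exact hx₂e)
    rw [← hY₁] at hb₁
    rw [← hY₂] at hb₂
    obtain ⟨B₁, hB₁⟩ : ∃ Y : F, Y = ι (j b₁) := ⟨_, rfl⟩
    obtain ⟨B₂, hB₂⟩ : ∃ Y : F, Y = ι (j b₂) := ⟨_, rfl⟩
    rw [← hB₁] at hb₁
    rw [← hB₂] at hb₂
    refine ⟨e₁ - b₂, e₂ + b₁, ?_⟩
    apply hι
    simp only [map_sub, map_add, map_mul]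
    rw [← hC₁, ← hC₂, ← hD₁, ← hD₂, ← hE₁, ← hE₂, ← hB₁, ← hB₂, ← hX₁, ← hX₂, ← hH₁, ← hH₂]
    have f1 : Y₁ * E₁ + Y₂ * E₂ = Y := by
      apply mul_left_cancel₀ hY0
      linear_combination -Y₁ * ee₁ - Y₂ * ee₂ + Y * eD₂ + Y₁ * Y * eone
    have f2 : Y₂ * B₁ = Y₁ * B₂ := by
      apply mul_left_cancel₀ hN0
      linear_combination -Y₂ * hb₁ + Y₁ * hb₂
    have f3 : E₂ * H₁ = E₁ * H₂ := by
      apply mul_left_cancel₀ hY0
      apply mul_left_cancel₀ hY0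
      linear_combination Y₁ * E₂ * eh₁ - Y₁ * E₁ * eh₂ - V * C₁ * ee₂ + V * C₂ * ee₁
    have f4 : B₂ * H₂ + B₁ * H₁ = ι al := by
      apply mul_left_cancel₀ hN0
      apply mul_left_cancel₀ hY0
      linear_combination -(Y₁ * H₂) * hb₂ - (Y₁ * H₁) * hb₁ + ι al * Y₂ * eh₂ +
        ι al * Y₁ * eh₁ + ι al * V * eD₂ + ι al * V * Y₁ * eone
    linear_combination -halF - E * f1 - E * f2 - f3 - f4 + (E₁ - B₂) * hY₁E + (E₂ + B₁) * hY₂E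
  · simp only [map_sub, map_add, map_mul, hcj]
    rw [← hC₁, ← hC₂, ← hD₁, ← hD₂, ← hV, ← hX₁, ← hX₂, ← hH₁, ← hH₂, ch₁, ch₂]
    rw [← g1, ← g2, ← hY₁E, ← hY₂E]
    have g3 : Y₁ * H₁ + Y₂ * H₂ = V := by
      apply mul_left_cancel₀ hY0
      linear_combination Y₁ * eh₁ + Y₂ * eh₂ + V * eD₂ + V * Y₁ * eone
    linear_combination (Y₁ * H₁ + Y₂ * H₂) * hEc + s * g3

theorem bas : BasStmt := by
  intro k F _ _ _ _ _ m s c hF hs hc hm hQ hw I ν hν hI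
  obtain ⟨w, hw1, hw2⟩ := hw
  have hs0 : s ≠ 0 := by
    intro h0
    apply hm 0
    have h1 : algebraMap k F (0 ^ 2) = algebraMap k F (-(m : k)) := by
      rw [map_neg, ← hs, h0, map_pow, map_zero]
    exact (algebraMap k F).injective h1
  have hinjk : Function.Injective (algebraMap (𝓞 k) (𝓞 F)) := by
    intro x y hxy
    have h1 : algebraMap k F (algebraMap (𝓞 k) k x) = algebraMap k F (algebraMap (𝓞 k) k y) := by
      rw [← coe_alg, ← coe_alg, hxy]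
    exact RingOfIntegers.ext ((algebraMap k F).injective h1)
  obtain ⟨u, v, hu, hv, h1, h2⟩ := bas_core (algebraMap (𝓞 k) (𝓞 F)) (algebraMap (𝓞 F) F)
    (fun x y h => RingOfIntegers.ext h) hinjk (c : F ≃+* F) (conj_conj hF hs0 hc)
    (fun y => by rw [coe_alg]; exact c.commutes _)
    (fun x => ⟨RingOfIntegers.mapRingEquiv (c : F ≃+* F) x, rfl⟩) s hs0 hQ w hw1
    (fun x => by
      obtain ⟨p, q, h⟩ := hw2 x
      exact ⟨p, q, RingOfIntegers.ext h⟩) I (conjI (c : F ≃+* F) I) (mem_conjI _ I) ν hν hI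
  refine ⟨u, v, hu, hv, ?_, h2⟩
  intro x hx
  obtain ⟨p, q, h⟩ := h1 x hx
  refine ⟨p, q, ?_⟩
  rw [h]
  rfl

end Pool.Agent.LeoK.H61
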