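import Pool.Agent.Helper61_LeoK.Quad
import Pool.Agent.Helper75_LeoK.Tools
import Pool.Agent.Helper59_Leo3.Hil

/-!
# Squad leok, module IDL: an ideal whose cube is principal
-/

set_option autoImplicit false

open NumberField IsDedekindDomain WithZero Module
open Pool.Agent.Helper85_Leo Pool.Agent.Leo3

namespace Pool.Agent.LeoK.H61

/-- valuations of a generator of a cube of an ideal -/
theorem val_of_cube {F : Type} [Field F] [NumberField F] {g : 𝓞 F} (hg : g ≠ 0)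
    {J : Ideal (𝓞 F)} (hJ : J ^ 3 = Ideal.span {g}) (Q : HeightOneSpectrum (𝓞 F)) :
    ∃ x : ℤᵐ⁰, Q.valuation F (algebraMap (𝓞 F) F g) = x ^ 3 := by
  have hJ0 : J ≠ 0 := by
    rintro rfl
    rw [zero_pow three_ne_zero] at hJ
    exact hg (Ideal.span_singleton_eq_bot.1 hJ.symm)
  have hp : Prime Q.asIdeal := Q.prime
  have hf : FiniteMultiplicity Q.asIdeal J := FiniteMultiplicity.of_not_isUnit hp.not_isUnit hJ0
  refine ⟨exp (-(multiplicity Q.asIdeal J : ℤ)), ?_⟩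
  rw [HeightOneSpectrum.valuation_of_algebraMap, Q.intValuation_eq_exp_neg_multiplicity hg, ← hJ,
    hf.multiplicity_pow hp, ← exp_nsmul]
  congr 1
  push_cast
  simp

theorem idl : IdlStmt := by
  classical
  intro k F _ _ _ _ _ c hF hc h3 I hI0 hI3
  have : FiniteDimensional k F := Module.finite_of_finrank_pos (by omega)
  -- the involution
  have hcc : ∀ z : F, c (c z) = z := by
    have h1 : Fintype.card (F ≃ₐ[k] F) ≤ 2 := by
      rw [← hF]; exact AlgEquiv.card_le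
    have h2 : orderOf c ∣ Fintype.card (F ≃ₐ[k] F) := orderOf_dvd_card
    have h4 : orderOf c ≠ 1 := fun h => hc (orderOf_eq_one_iff.1 h)
    have h5 : 0 < orderOf c := orderOf_pos c
    have h6 : orderOf c ≤ Fintype.card (F ≃ₐ[k] F) := Nat.le_of_dvd Fintype.card_pos h2
    have h7 : orderOf c = 2 := by omega
    have h8 : c ^ 2 = 1 := by rw [← h7]; exact pow_orderOf_eq_one c
    intro z
    have h9 := congrArg (fun f : F ≃ₐ[k] F => f z) h8
    rw [sq] at h9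
    exact h9
  obtain ⟨s, hs0, hs⟩ : ∃ s : F, s ≠ 0 ∧ c s = -s := by
    obtain ⟨x, hx⟩ : ∃ x : F, c x ≠ x := by
      by_contra hcon
      push Not at hcon
      exact hc (AlgEquiv.ext hcon)
    refine ⟨x - c x, fun h => hx (sub_eq_zero.1 h).symm, ?_⟩
    rw [map_sub, hcc]
    ring
  obtain ⟨b₀, hb₀⟩ := hI3
  have hb₀' : I ^ 3 = Ideal.span {b₀} := hb₀
  have hb₀0 : b₀ ≠ 0 := by
    rintro rfl
    rw [Ideal.span_singleton_eq_bot.2 rfl] at hb₀'
    exact hI0 (pow_eq_zero_iff three_ne_zero |>.1 hb₀')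
  obtain ⟨b₁, hb₁⟩ : ∃ b₁ : 𝓞 F, algebraMap (𝓞 F) F b₁ = c (algebraMap (𝓞 F) F b₀) :=
    ⟨RingOfIntegers.mapRingEquiv (c : F ≃+* F) b₀, rfl⟩
  have hιinj : Function.Injective (algebraMap (𝓞 F) F) := fun x y h => RingOfIntegers.ext h
  have hb₁0 : b₁ ≠ 0 := by
    rintro rfl
    rw [map_zero] at hb₁
    have h1 : algebraMap (𝓞 F) F b₀ = 0 := (map_eq_zero c).1 hb₁.symm
    exact hb₀0 (hιinj (by rw [h1, map_zero]))
  have hconj3 : (conjI (c : F ≃+* F) I) ^ 3 = Ideal.span {b₁} := by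
    unfold conjI
    have e : (RingOfIntegers.mapRingEquiv (c : F ≃+* F)) b₀ = b₁ := hιinj hb₁.symm
    rw [← Ideal.map_pow, hb₀', Ideal.map_span, Set.image_singleton, e]
  obtain ⟨J, hJ⟩ : ∃ J : Ideal (𝓞 F), J = I * conjI (c : F ≃+* F) I := ⟨_, rfl⟩
  have hJ3 : J ^ 3 = Ideal.span {b₀ * b₁} := by
    rw [hJ, mul_pow, hb₀', hconj3, Ideal.span_singleton_mul_span_singleton]
  have hg0 : b₀ * b₁ ≠ 0 := mul_ne_zero hb₀0 hb₁0
  -- the norm
  obtain ⟨g, hg⟩ := fixed_mem hF hs0 hs (z := algebraMap (𝓞 F) F (b₀ * b₁)) (by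
    rw [map_mul, hb₁, map_mul, hcc]
    ring)
  have hg0' : g ≠ 0 := by
    rintro rfl
    rw [map_zero] at hg
    exact hg0 (hιinj (by rw [hg, map_zero]))
  obtain ⟨x, v, hx0, hv, hxv⟩ := Pool.Agent.Leo3.H59.cube_of_val h3 g hg0' (by
    intro q
    obtain ⟨Q, e, he, _, hval⟩ := Pool.Agent.LeoK.H75.exists_above hF q
    obtain ⟨y, hy⟩ := val_of_cube hg0 hJ3 Q
    rw [hg, hval] at hy
    exact Pool.Agent.LeoK.H75.cu he ((Valuation.ne_zero_iff _).2 hg0') hy)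
  obtain ⟨v', hv'⟩ := hv.exists_unit
  -- `ν`
  have hν3 : (x * v) ^ 3 = g * v ^ 2 := by rw [hxv]; ring
  have hint : IsIntegral ℤ (x * v) := by
    refine IsIntegral.of_pow (n := 3) (by norm_num) ?_
    rw [hν3]
    have h1 : IsIntegral ℤ g := by
      rw [← isIntegral_algebraMap_iff (algebraMap k F).injective, ← hg]
      exact RingOfIntegers.isIntegral_coe _
    exact h1.mul (hv.2.1.pow 2)
  obtain ⟨ν, hν⟩ : ∃ ν : 𝓞 k, algebraMap (𝓞 k) k ν = x * v := ⟨⟨x * v, hint⟩, rfl⟩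
  have hν0 : ν ≠ 0 := by
    rintro rfl
    rw [map_zero] at hν
    exact (mul_ne_zero hx0 hv.1) hν.symm
  obtain ⟨u, hu⟩ : ∃ u : (𝓞 F)ˣ, (u : 𝓞 F) = algebraMap (𝓞 k) (𝓞 F) (v' : 𝓞 k) :=
    ⟨Units.map (algebraMap (𝓞 k) (𝓞 F)).toMonoidHom v', rfl⟩
  have huF : algebraMap (𝓞 F) F (u : 𝓞 F) = algebraMap k F v := by
    rw [hu, coe_alg, hv']
  refine ⟨b₀ * u, ν, mul_ne_zero hb₀0 u.ne_zero, hν0, ?_, ?_, ?_⟩
  · rw [hb₀', Ideal.span_singleton_mul_right_unit u.isUnit]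
  · show algebraMap (𝓞 F) F (b₀ * u) * c (algebraMap (𝓞 F) F (b₀ * u)) =
      algebraMap k F (algebraMap (𝓞 k) k ν) ^ 3
    rw [map_mul, map_mul, huF, c.commutes, ← hb₁, hν, ← map_pow, hν3, map_mul, map_pow, ← hg,
      map_mul]
    ring
  · rw [← hJ]
    have h5 : J ^ 3 = (Ideal.span {algebraMap (𝓞 k) (𝓞 F) ν}) ^ 3 := by
      rw [hJ3, Ideal.span_singleton_pow]
      have h6 : algebraMap (𝓞 k) (𝓞 F) ν ^ 3 = b₀ * b₁ * ((u ^ 2 : (𝓞 F)ˣ) : 𝓞 F) := by
        apply hιinj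
        rw [map_pow, coe_alg, hν, ← map_pow, hν3, map_mul, map_pow, Units.val_pow_eq_pow_val,
          map_mul, map_pow, huF, hg]
      rw [h6, Ideal.span_singleton_mul_right_unit (Units.isUnit _)]
    exact pow_left_injective three_ne_zero h5

end Pool.Agent.LeoK.H61
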